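import Pool.Agent.Lib.MP_b0105e_co_h74.Limit

/-!
The windows of the triangle of order `r` on the diagonal are totally positive for all but finitely
many pairs of an order and a position.
-/

namespace Pool.Agent.Results.MP_b0105e_co.DiagonalWindows

open B0105e in
/-- For every `m` there is `C` such that for all orders `r` and all positions `K` with
`r + K ≥ C` every minor of the triangle of order `r` with all row indices at most `K + m` and all
column indices at least `K` is nonnegative. -/
theorem result : ∀ m : ℕ, ∃ C : ℕ, ∀ r K : ℕ, 1 ≤ r → C ≤ r + K →
    ∀ (p : ℕ) (i j : Fin p → ℕ), StrictMono i → StrictMono j → (∀ s, i s ≤ K + m) →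
      (∀ s, K ≤ j s) → 0 ≤ minor r i j :=
  diagonal_windows

end Pool.Agent.Results.MP_b0105e_co.DiagonalWindows
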