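import Pool.Agent.Lib.MP_b0105e_co_h74.Three

/-!
All minors with at most two columns of index at least two are nonnegative, for every order.
-/

namespace Pool.Agent.Results.MP_b0105e_co.FewColumns

open B0105e in
/-- For every order `r ≥ 1` every minor in which all column indices except possibly the last two
are at most `1` is nonnegative; in particular all minors of size two. -/
theorem result : ∀ r : ℕ, 1 ≤ r → ∀ (p : ℕ) (i j : Fin p → ℕ), StrictMono i → StrictMono j →
    (∀ s : Fin p, (s : ℕ) + 3 ≤ p → j s ≤ 1) → 0 ≤ minor r i j :=
  few_columns

end Pool.Agent.Results.MP_b0105e_co.FewColumns
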