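import Pool.Agent.Lib.MP_b0105e_co_h74.Uniform

/-!
The first columns of the triangles of all orders: nonnegative minors for all but finitely many
pairs of an order and a first row, positive minors in deep rows.
-/

namespace Pool.Agent.Results.MP_b0105e_co.FirstColumns

open B0105e in
/-- For every `m` there is `C` such that for all orders `r ≥ 1` every minor in the columns
`0, ..., m` all of whose row indices `n` satisfy `r + n ≥ C` is nonnegative; it is positive if
moreover all row indices are at least `C` and column `0` is not used. -/
theorem result : ∀ m : ℕ, ∃ C : ℕ, ∀ r : ℕ, 1 ≤ r →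
    ∀ (p : ℕ) (i j : Fin p → ℕ), StrictMono i → StrictMono j → (∀ s, j s ≤ m) →
      (∀ s, C ≤ r + i s) →
      0 ≤ minor r i j ∧ ((∀ s, C ≤ i s) → (∀ s, 1 ≤ j s) → 0 < minor r i j) :=
  first_columns

end Pool.Agent.Results.MP_b0105e_co.FirstColumns
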