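import Pool.Agent.Lib.MP_b0105e_co_h10.Main

/-!
The first five columns of the triangle are totally positive for every order.
-/

namespace Pool.Agent.Results.MP_b0105e_co.FiveColumns

open B0105e in
/-- For every order `r ≥ 1` all minors with column indices at most `4` are nonnegative. -/
theorem result : ∀ r : ℕ, 1 ≤ r →
    ∀ (p : ℕ) (i j : Fin p → ℕ), StrictMono i → StrictMono j → (∀ s, j s ≤ 4) →
      0 ≤ minor r i j :=
  small_columns_S

end Pool.Agent.Results.MP_b0105e_co.FiveColumns
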